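import Pool.Agent.W734.STS.Stms

set_option autoImplicit false

noncomputable section

namespace Pool.Agent.W89.STS

open Pool.Agent.W734.STS

/-- the level of an inactive block -/
def gI : Blk → Option ℕ
  | Blk.I k => some k
  | _ => none

/-- sum of `lam ^ k` over the inactive blocks -/
def sI (L : List Blk) : ℝ := ((L.filterMap gI).map (fun k => lam ^ k)).sum

theorem sI_A (t : List Blk) : sI (Blk.A :: t) = sI t := rfl
theorem sI_B (t : List Blk) : sI (Blk.B :: t) = sI t := rfl
theorem sI_E (t : List Blk) : sI (Blk.E :: t) = sI t := rfl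
theorem sI_I (k : ℕ) (t : List Blk) : sI (Blk.I k :: t) = lam ^ k + sI t := by simp [sI, gI]
theorem nI_A (t : List Blk) : nI (Blk.A :: t) = nI t := by simp [nI, isI]
theorem nI_B (t : List Blk) : nI (Blk.B :: t) = nI t := by simp [nI, isI]
theorem nI_E (t : List Blk) : nI (Blk.E :: t) = nI t := by simp [nI, isI]
theorem nI_I (k : ℕ) (t : List Blk) : nI (Blk.I k :: t) = nI t + 1 := by
  simp [nI, List.countP_cons, isI]

theorem sI_step (j : ℕ) (L : List Blk) :
    sI (step j L) = sI L + lam ^ j * ((nI (step j L) : ℝ) - nI L) := by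
  fun_induction step j L with
  | case1 => simp
  | case2 t ih => rw [sI_A, sI_A, sI_B, nI_A, nI_A, nI_B, ih]
  | case3 t _ ih => rw [sI_A, sI_B, nI_A, nI_B, ih]
  | case4 t ih => rw [sI_I, sI_B, nI_I, nI_B, ih]; push_cast; ring
  | case5 k t ih => rw [sI_I, sI_I, nI_I, nI_I, ih]; push_cast; ring
  | case6 t ih => rw [sI_E, sI_E, nI_E, nI_E, ih]

theorem flat (n : ℕ) (L : List Blk) (hA : Blk.A ∉ L) (hB : Blk.B ∉ L) :
    (L.map (wd n)).flatten = ((L.filterMap gI).map S).flatten := by
  induction L with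
  | nil => simp
  | cons x t ih =>
    have ih' := ih (fun h => hA (List.mem_cons_of_mem _ h)) (fun h => hB (List.mem_cons_of_mem _ h))
    cases x with
    | A => exact absurd (List.mem_cons_self) hA
    | B => exact absurd (List.mem_cons_self) hB
    | I k => simp [gI, wd, ih']
    | E =>
      have e1 : List.filterMap gI (Blk.E :: t) = List.filterMap gI t := rfl
      rw [e1, ← ih']; simp [wd]

/-- the costs by level -/
def W (u : List (Fin 2)) : ℕ → ℕ
  | 0 => V 1 u
  | 1 => T u
  | (i + 2) => V (D (i + 1)) u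

theorem sum_W (u : List (Fin 2)) :
    ∑ i ∈ Finset.range (u.length + 2), lam ^ i * (W u i : ℝ) ≤ G u := by
  rw [Finset.sum_range_succ', Finset.sum_range_succ']
  simp only [W]
  have h1 : (lam ^ 0 * (V 1 u : ℝ)) = V 1 u := by simp
  have h2 : lam ^ (0 + 1) * (T u : ℝ) ≤ T u := by
    have : (0 : ℝ) ≤ T u := Nat.cast_nonneg _
    unfold lam; nlinarith
  have h3 : ∑ k ∈ Finset.range u.length, lam ^ (k + 1 + 1) * (V (D (k + 1)) u : ℝ) ≤
      ∑ i ∈ Finset.Icc 1 u.length, lam ^ i * V (D i) u := by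
    have e : ∑ i ∈ Finset.Icc 1 u.length, lam ^ i * (V (D i) u : ℝ) =
        ∑ k ∈ Finset.range u.length, lam ^ (k + 1) * (V (D (k + 1)) u : ℝ) := by
      rw [Finset.range_eq_Ico, Finset.sum_Ico_add' (fun i => lam ^ i * (V (D i) u : ℝ)) 0 u.length 1]
      rfl
    rw [e]
    refine Finset.sum_le_sum fun k _ => ?_
    refine mul_le_mul_of_nonneg_right ?_ (Nat.cast_nonneg _)
    exact pow_le_pow_of_le_one (by unfold lam; norm_num) (by unfold lam; norm_num) (by omega)
  have : G u = (V 1 u : ℝ) + T u + ∑ i ∈ Finset.Icc 1 u.length, lam ^ i * V (D i) u := rfl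
  rw [this]
  linarith

theorem G_nonneg (u : List (Fin 2)) : 0 ≤ G u := by
  unfold G
  have h : (0 : ℝ) ≤ lam := by unfold lam; norm_num
  have : (0 : ℝ) ≤ ∑ i ∈ Finset.Icc 1 u.length, lam ^ i * (V (D i) u : ℝ) :=
    Finset.sum_nonneg fun i _ => mul_nonneg (pow_nonneg h _) (Nat.cast_nonneg _)
  positivity

/-- the geometric sum -/
theorem geo (w : ℕ → ℝ) (n : ℕ) :
    ∑ j ∈ Finset.range n, lam ^ j * (6 + 3 * ∑ i ∈ Finset.range (j + 1), w i) =
      18 * (1 - lam ^ n) + 9 * ∑ i ∈ Finset.range n, lam ^ i * w i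
        - 9 * lam ^ n * ∑ i ∈ Finset.range n, w i := by
  induction n with
  | zero => simp
  | succ n ih =>
    rw [Finset.sum_range_succ, ih, Finset.sum_range_succ (fun i => lam ^ i * w i),
      Finset.sum_range_succ w n, pow_succ]
    have : lam = 2 / 3 := rfl
    generalize lam ^ n = x at *
    rw [this]
    ring

theorem lc : S_WD → S_CLU → S_VIO → S_LC := by
  intro hWD hCLU hVIO
  obtain ⟨-, hW2, hW3, -, hW5⟩ := hWD
  refine ⟨18, by norm_num, fun u => ?_⟩
  have hlam : (0 : ℝ) ≤ lam := by unfold lam; norm_num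
  obtain ⟨c1, c2, c3, c4⟩ := hCLU.2 u
  have hQ : ∀ i, Q (P u i) ≤ W u (i + 1) := by
    intro i
    rcases i with _ | i
    · exact (hVIO u).1
    · exact (hVIO u).2 (i + 1) (by omega)
  have hrec : ∀ j, nI (P u (j + 2)) ≤ nI (P u (j + 1)) + 3 * K (P u (j + 1)) + Q (P u j) ∧
      K (P u (j + 2)) ≤ K (P u (j + 1)) + Q (P u j) := by
    intro j
    obtain ⟨M, hM⟩ := hW5 u j
    have := hCLU.1 j M
    rw [← hM] at this
    exact this
  have hK : ∀ j, K (P u (j + 1)) ≤ 2 + ∑ i ∈ Finset.range (j + 1), W u i := by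
    intro j
    induction j with
    | zero => simpa [W, P] using c4
    | succ j ih =>
      rw [Finset.sum_range_succ]
      have h1 : K (P u (j + 1 + 1)) ≤ K (P u (j + 1)) + Q (P u j) := (hrec j).2
      have := hQ j
      omega
  have hN : ∀ j, (nI (P u (j + 1)) : ℝ) - nI (P u j) ≤
      6 + 3 * ∑ i ∈ Finset.range (j + 1), (W u i : ℝ) := by
    intro j
    have h : nI (P u (j + 1)) ≤ nI (P u j) + (6 + 3 * ∑ i ∈ Finset.range (j + 1), W u i) := by
      rcases j with _ | j
      · have : nI (P u (0 + 1)) ≤ 1 + V 1 u := c3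
        have h0 : ∑ i ∈ Finset.range (0 + 1), W u i = V 1 u := by simp [W]
        rw [h0]
        omega
      · have h1 : nI (P u (j + 1 + 1)) ≤ nI (P u (j + 1)) + 3 * K (P u (j + 1)) + Q (P u j) :=
          (hrec j).1
        have h2 := hQ j
        have h3 := hK j
        rw [Finset.sum_range_succ]
        omega
    have h' : (nI (P u (j + 1)) : ℝ) ≤
        nI (P u j) + (6 + 3 * ∑ i ∈ Finset.range (j + 1), (W u i : ℝ)) := by
      exact_mod_cast h
    linarith
  have hs : ∀ n, sI (P u n) ≤ ∑ j ∈ Finset.range n,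
      lam ^ j * (6 + 3 * ∑ i ∈ Finset.range (j + 1), (W u i : ℝ)) := by
    intro n
    induction n with
    | zero =>
      have : sI (P u 0) = 0 := by
        have h0 : (P u 0).filterMap gI = [] := by
          have : nI (P u 0) = 0 := c1
          rw [List.filterMap_eq_nil_iff]
          intro a ha
          have h1 := List.countP_eq_zero.1 this a ha
          cases a <;> simp_all [isI, gI]
        simp [sI, h0]
      simp [this]
    | succ n ih =>
      rw [Finset.sum_range_succ]
      have : sI (P u (n + 1)) = sI (P u n) + lam ^ n * ((nI (P u (n + 1)) : ℝ) - nI (P u n)) :=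
        sI_step n (P u n)
      rw [this]
      exact add_le_add ih (mul_le_mul_of_nonneg_left (hN n) (pow_nonneg hlam n))
  refine ⟨(P u (u.length + 2)).filterMap gI, ?_, ?_⟩
  · have hfib : u.length < Nat.fib (u.length + 2 + 1) := by
      have := Nat.le_fib_add_one (u.length + 2 + 1)
      omega
    obtain ⟨hA, hB⟩ := hW3 u (u.length + 2) hfib
    rw [← flat (u.length + 2) _ hA hB, hW2]
  · have h1 := hs (u.length + 2)
    rw [geo] at h1
    have h2 := sum_W u
    have h3 := G_nonneg u
    have h4 : 0 ≤ lam ^ (u.length + 2) := pow_nonneg hlam _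
    have h5 : 0 ≤ lam ^ (u.length + 2) * ∑ i ∈ Finset.range (u.length + 2), (W u i : ℝ) :=
      mul_nonneg h4 (Finset.sum_nonneg fun i _ => Nat.cast_nonneg _)
    have h6 : sI (P u (u.length + 2)) =
      (((P u (u.length + 2)).filterMap gI).map (fun k => lam ^ k)).sum := rfl
    rw [← h6]
    nlinarith

end Pool.Agent.W89.STS
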